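import Pool.Agent.H86.BlL

namespace Pool.Agent.Results.MP_11a8c1_an.NotProj
open Pool.Agent.H86.Bl Filter Topology

/-- positive bilinear map -/
def PosBil {X Y W : Type} [BL X] [BL Y] [BL W] (φ : X →L[ℝ] Y →L[ℝ] W) : Prop :=
  ∀ x y, 0 ≤ x → 0 ≤ y → 0 ≤ φ x y

/-- `T` is a positive operator with `T (x ⊗ y) = φ x y` and `‖T‖ = c`. -/
def Induced {X Y Z W : Type} [BL X] [BL Y] [BL Z] [BL W] (t : X → Y → Z) (φ : X → Y → W) (c : ℝ)
    (T : Z →L[ℝ] W) : Prop :=
  (∀ z, 0 ≤ z → 0 ≤ T z) ∧ (∀ x y, T (t x y) = φ x y) ∧ ‖T‖ = c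

/-- every bounded positive bilinear map into `W` factors uniquely through `t` -/
def Factors {X Y Z : Type} [BL X] [BL Y] [BL Z] (t : X → Y → Z) (W : Type) [BL W] : Prop :=
  ∀ φ : X →L[ℝ] Y →L[ℝ] W, PosBil φ → ∃! T : Z →L[ℝ] W, Induced t (fun x y => φ x y) ‖φ‖ T

/-- `(Z, t)` is the Fremlin projective tensor product of `X` and `Y`. -/
def IsFremlin {X Y Z : Type} [BL X] [BL Y] [BL Z] (t : X →L[ℝ] Y →L[ℝ] Z) : Prop :=
  PosBil t ∧ ∀ (W : Type) [BL W], Factors (fun x y => t x y) W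

abbrev LL : Type := LI fun _ : ℕ × ℕ => ℝ

noncomputable def JJ : Submodule ℝ LL where
  carrier := {z | Tendsto (fun k => pr _ k z) cofinite (𝓝 0)}
  zero_mem' := by simpa using tendsto_const_nhds
  add_mem' := fun {a b} ha hb => by simpa using Tendsto.add ha hb
  smul_mem' := fun t a ha => by simpa using Tendsto.const_mul t ha

theorem JJ_ideal : IsIdeal JJ := by
  refine ⟨isClosed_of_closure_subset fun z hz => Metric.tendsto_nhds.2 fun ε hε => ?_,
    fun a ha b h => squeeze_zero_norm (fun k => h k) (abs_zero (α := ℝ) ▸ Tendsto.abs ha)⟩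
  obtain ⟨w, hw, h⟩ := Metric.mem_closure_iff.1 hz _ (half_pos hε)
  refine (Metric.tendsto_nhds.1 hw _ (half_pos hε)).mono fun k hk => ?_
  have := pr_le _ k (z - w)
  rw [map_sub] at this
  rw [dist_eq_norm] at h
  rw [dist_zero_right] at hk ⊢
  linarith [norm_sub_norm_le (pr _ k z) (pr _ k w)]

theorem JJ_norm (z : LL) {b : ℝ} (hb : 0 ≤ b) (h : ∀ᶠ k in cofinite, |pr _ k z| ≤ b) :
    ‖JJ.mkQ z‖ ≤ b := by
  have bd : ∀ k, ‖if |pr _ k z| ≤ b then pr _ k z else 0‖ ≤ b := fun k => by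
    split_ifs with h; exacts [h, by simpa]
  let w : LL := ⟨fun k => if |pr _ k z| ≤ b then pr _ k z else 0, memℓp_infty ⟨b, by
    rintro _ ⟨k, rfl⟩; exact bd k⟩⟩
  have : JJ.mkQ z = JJ.mkQ w := (Submodule.Quotient.eq _).2 (tendsto_const_nhds.congr'
    (h.mono fun k hk => by
      change (0 : ℝ) = pr _ k z - if |pr _ k z| ≤ b then pr _ k z else 0
      rw [if_pos hk, sub_self]))
  rw [this]
  exact (Submodule.Quotient.norm_mk_le _ w).trans (LI_le _ _ hb bd)

noncomputable def pp (k : ℕ × ℕ) (α : ℕ → ℕ) : unitInterval := if α k.1 = k.2 then 1 else 0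
noncomputable def qq (k : ℕ × ℕ) (n : ℕ) : unitInterval := if k.1 = n then 1 else 0

theorem gen_le (a : Option (ℕ → ℕ)) (b : Option ℕ) :
    ∀ᶠ k in cofinite, (GC _ a (pp k) : ℝ) * GC _ b (qq k) ≤ 1 / 2 := by
  cases a with
  | none =>
    exact Eventually.of_forall fun k => mul_le_of_le_one_right (a := (1 / 2 : ℝ))
      (by norm_num) (GC _ b _).2.2
  | some α =>
    cases b with
    | none =>
      exact Eventually.of_forall fun k => mul_le_of_le_one_left (b := (1 / 2 : ℝ))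
        (by norm_num) (GC _ _ _).2.2
    | some n =>
      refine (eventually_cofinite_ne (n, α n)).mono fun k hk => ?_
      simp only [GC, pp, qq]
      split_ifs with h1 h2 <;> try norm_num
      exact hk (Prod.ext h2 (by rw [← h1, h2]))

theorem result : ∃ (X Y Z : Type) (_ : BL X) (_ : BL Y) (_ : BL Z) (t : X →L[ℝ] Y →L[ℝ] Z),
    Proj.{0} X ∧ Proj.{0} Y ∧ HasTOU X ∧ HasTOU Y ∧ IsFremlin t ∧ ¬ Proj.{0} Z := by
  obtain ⟨X, _, g, hg⟩ := exCube (ℕ → ℕ)
  obtain ⟨Y, _, g', hg'⟩ := exCube ℕ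
  obtain ⟨r, r1, r2⟩ := hg.rep
  obtain ⟨s, s1, s2⟩ := hg'.rep
  refine ⟨X, Y, FT r s, inferInstance, inferInstance, inferInstance, tp r s, hg.proj, hg'.proj,
    hg.tou, hg'.tou, ⟨tp_pos r s, fun W _ φ hφ => fremlin r s φ hφ⟩, fun h => ?_⟩
  let R : FT r s →ₗ[ℝ] LL :=
    { toFun := fun u => ⟨fun k => toC r s u (pp k, qq k), memℓp_infty ⟨‖toC r s u‖, by
        rintro _ ⟨k, rfl⟩; exact ContinuousMap.norm_coe_le_norm _ _⟩⟩
      map_add' := fun _ _ => rfl
      map_smul' := fun _ _ => rfl }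
  have hb : ∀ u, ‖JJ.mkQ.comp R u‖ ≤ 1 / 2 * ‖u‖ := fun u => by
    rw [← div_le_iff₀' (by norm_num)]
    refine le_nF r s fun c ⟨v, hv, hc⟩ => (div_le_iff₀' (by norm_num)).2
      (le_of_forall_pos_le_add fun δ hδ => JJ_norm _ (by
        linarith [(norm_nonneg _).trans (SS_le r s hv)]) ?_)
    refine (SS_ind r s (Q := fun v c => ∀ δ, 0 < δ → ∀ᶠ k in cofinite,
      v (pp k, qq k) ≤ 1 / 2 * c + δ) (fun δ hδ => Eventually.of_forall fun k => by simpa using hδ.le)
        (fun x y _ _ δ hδ => ?_) (fun v c w d h1 h2 δ hδ => ((h1 _ (half_pos hδ)).and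
          (h2 _ (half_pos hδ))).mono fun k hk => by
            rw [ContinuousMap.add_apply]; linarith [hk.1, hk.2]) hv δ hδ).mono
              fun k hk => (hc (pp k, qq k)).trans hk
    obtain ⟨ε, h1, h2, h3⟩ : ∃ ε : ℝ, 0 < ε ∧ ε ≤ 1 ∧ ε * (‖x‖ + ‖y‖ + 1) ≤ δ :=
      ⟨min 1 (δ / (‖x‖ + ‖y‖ + 1)), by positivity, min_le_left _ _,
        (le_div_iff₀ (by positivity)).1 (min_le_right _ _)⟩
    obtain ⟨c1, a1, a2⟩ := r2 x ε h1
    obtain ⟨c2, b1, b2⟩ := s2 y ε h1
    refine (b1.ev_le qq (fun k => |r.e x (pp k)|) (fun k => ⟨abs_nonneg _, a1.le _⟩)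
      (b := c1 * (1 / 2)) (by linarith [a1.nonneg]) (fun b δ hδ => (a1.ev_le pp
        (fun k => GC _ b (qq k)) (fun k => (GC _ b (qq k)).2) (by norm_num)
          (fun a δ hδ => (gen_le a b).mono fun k hk => hk.trans (le_add_of_nonneg_right hδ.le))
            δ hδ).mono fun k hk => by rwa [mul_comm]) _ (half_pos hδ)).mono fun k hk => ?_
    rw [tp0_apply]
    refine (le_abs_self _).trans ?_
    rw [abs_mul, mul_comm]
    have := mul_le_mul a2.le b2.le b1.nonneg (by positivity)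
    nlinarith
  obtain ⟨S, t1, t2, t3⟩ := h LL JJ JJ_ideal ((JJ.mkQ.comp R).mkContinuous _ hb) (fun p x hx =>
    (JJ_ideal.abs_congr (b := R p) hx).symm) (1 / 10) (by norm_num)
  have t4 : ‖S‖ ≤ 11 / 20 := t3.trans (by
    linarith [LinearMap.mkContinuous_norm_le (JJ.mkQ.comp R) (by norm_num) hb])
  let χ : ℕ × ℕ → C(((ℕ → ℕ) → unitInterval) × (ℕ → unitInterval), ℝ) →L[ℝ] ℝ := fun k =>
    (pr _ k).comp (S.comp ((toC r s).symm : _ →L[ℝ] FT r s))
  have hχ : ∀ k, LatHom (χ k) := fun k => (pr_hom _ k).comp' (t1.comp' fun _ => rfl)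
  have cv : ∀ u, ∀ᶠ k in cofinite, |χ k u - u (pp k, qq k)| < 1 / 10 := fun u => by
    have : Tendsto (fun k => χ k u - u (pp k, qq k)) cofinite (𝓝 0) :=
      (Submodule.Quotient.eq _).1 (t2 ((toC r s).symm u))
    exact this.abs.eventually_lt_const (by norm_num)
  have c1 : ∀ n, ∃ m, 9 / 10 < χ (n, m) ((s.e (g' (some n))).comp .snd) := fun n => by
    obtain ⟨m, hm⟩ := ((Prod.mk_right_injective n).tendsto_cofinite.eventually
      (cv ((s.e (g' (some n))).comp .snd))).exists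
    refine ⟨m, ?_⟩
    simp only [ContinuousMap.comp_apply, ContinuousMap.snd_apply, s1, GC, qq, if_pos,
      Set.Icc.coe_one] at hm
    linarith [(abs_lt.1 hm).1]
  choose α hα using c1
  obtain ⟨n, h1, h2⟩ := ((Function.Injective.tendsto_cofinite (f := fun n => (n, α n))
    fun _ _ h => congrArg Prod.fst h).eventually
      ((cv ((r.e (g (some α))).comp .fst)).and (cv 1))).exists
  simp only [ContinuousMap.comp_apply, ContinuousMap.fst_apply, r1, GC, pp, if_pos,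
    Set.Icc.coe_one, ContinuousMap.one_apply] at h1 h2
  have e := hom_mul _ (hχ (n, α n)) ((r.e (g (some α))).comp .fst) ((s.e (g' (some n))).comp .snd)
  have e1 : |χ (n, α n) ((r.e (g (some α))).comp .fst * (s.e (g' (some n))).comp .snd)| ≤ 11 / 20 := by
    refine (pr_le _ _ _).trans ((S.le_opNorm (tp r s (g (some α)) (g' (some n)))).trans ?_)
    have := (tp_le r s _ _).trans (mul_le_one₀ (hg.rel.2.1 (some α)) (norm_nonneg _)
      (hg'.rel.2.1 (some n)))
    nlinarith [norm_nonneg S, norm_nonneg (tp r s (g (some α)) (g' (some n)))]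
  have a1 := abs_lt.1 h1
  have a2 := abs_lt.1 h2
  have a3 := abs_le.1 e1
  nlinarith [hα n]

end Pool.Agent.Results.MP_11a8c1_an.NotProj
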